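import Mathlib

/-!
# Pliss rows

A continuous function on `[0, 1]` with strict minimum at `1` has uncountably many first hitting
points near `1`.
-/

set_option autoImplicit false

namespace Pool.S6C

/-- **Pliss rows.** -/
theorem pliss {g : ℝ → ℝ} (hg : ContinuousOn g (Set.Icc 0 1))
    (h1 : ∀ t, 0 ≤ t → t < 1 → g 1 < g t) {x : ℝ} (hx : 0 < x) {C : Set ℝ}
    (hC : C.Countable) :
    ∃ Q, 1 - x < Q ∧ 0 < Q ∧ Q < 1 ∧ Q ∉ C ∧ ∀ P, 0 ≤ P → P ≤ Q → g Q ≤ g P := by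
  obtain ⟨y, hy⟩ : ∃ y, y = min x 1 := ⟨_, rfl⟩
  have hy0 : 0 < y := by rw [hy]; exact lt_min hx one_pos
  have hy1 : y ≤ 1 := by rw [hy]; exact min_le_right _ _
  have hyx : y ≤ x := by rw [hy]; exact min_le_left _ _
  obtain ⟨t₀, ht₀, hmin⟩ := (isCompact_Icc (a := (0 : ℝ)) (b := 1 - y)).exists_isMinOn
    ⟨0, by constructor <;> linarith⟩ (hg.mono (Set.Icc_subset_Icc le_rfl (by linarith)))
  have hm : g 1 < g t₀ := h1 t₀ ht₀.1 (by have := ht₀.2; linarith)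
  have key : ∀ v, g 1 < v → v < g t₀ → ∃ Q, 1 - y < Q ∧ Q < 1 ∧ g Q = v ∧
      ∀ P, 0 ≤ P → P ≤ Q → g Q ≤ g P := by
    intro v hv1 hv2
    obtain ⟨K, hK⟩ : ∃ K : Set ℝ, K = Set.Icc 0 1 ∩ g ⁻¹' Set.Iic v := ⟨_, rfl⟩
    have hKc : IsClosed K := by
      rw [hK]
      exact hg.preimage_isClosed_of_isClosed isClosed_Icc isClosed_Iic
    have hKn : K.Nonempty := by
      rw [hK]
      exact ⟨1, ⟨zero_le_one, le_rfl⟩, hv1.le⟩
    have hKb : BddBelow K := by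
      rw [hK]
      exact ⟨0, fun t ht => ht.1.1⟩
    obtain ⟨Q, hQ⟩ : ∃ Q, Q = sInf K := ⟨_, rfl⟩
    have hQK : Q ∈ K := by rw [hQ]; exact hKc.csInf_mem hKn hKb
    have hlow : ∀ t, t < Q → t ∉ K := by
      intro t ht htK
      have := csInf_le hKb htK
      rw [← hQ] at this
      linarith
    have hQ' := hQK
    rw [hK] at hQ'
    obtain ⟨⟨q0, q1⟩, q2⟩ := hQ'
    have q2 : g Q ≤ v := q2
    have hQy : 1 - y < Q := by
      by_contra hcon
      push Not at hcon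
      have := hmin (show Q ∈ Set.Icc 0 (1 - y) from ⟨q0, hcon⟩)
      have : g t₀ ≤ g Q := this
      linarith
    have hQ0 : 0 < Q := by linarith
    have hPv : ∀ P, 0 ≤ P → P < Q → v < g P := by
      intro P hP hPQ
      by_contra hcon
      push Not at hcon
      refine hlow P hPQ ?_
      rw [hK]
      exact ⟨⟨hP, by linarith⟩, hcon⟩
    have hgQ : g Q = v := by
      refine le_antisymm q2 ?_
      by_contra hcon
      push Not at hcon
      have hc := hg Q ⟨q0, q1⟩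
      have hc2 : ContinuousWithinAt g (Set.Ico 0 Q) Q :=
        hc.mono fun t ht => ⟨ht.1, ht.2.le.trans q1⟩
      have hne : (nhdsWithin Q (Set.Ico 0 Q)).NeBot := by
        rw [← mem_closure_iff_nhdsWithin_neBot, closure_Ico hQ0.ne]
        exact ⟨q0, le_rfl⟩
      have hev : ∀ᶠ t in nhdsWithin Q (Set.Ico 0 Q), g t < v := hc2.eventually_lt_const hcon
      have hev2 : ∀ᶠ t in nhdsWithin Q (Set.Ico 0 Q), t ∈ Set.Ico 0 Q :=
        self_mem_nhdsWithin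
      obtain ⟨t, ht1, ht2⟩ := (hev.and hev2).exists
      exact absurd (hPv t ht2.1 ht2.2) (not_lt.2 ht1.le)
    have hQ1 : Q < 1 := by
      refine lt_of_le_of_ne q1 fun h => ?_
      rw [h] at hgQ
      linarith
    refine ⟨Q, hQy, hQ1, hgQ, fun P hP hPQ => ?_⟩
    rcases hPQ.lt_or_eq with h | h
    · rw [hgQ]
      exact (hPv P hP h).le
    · rw [h]
  by_contra hcon
  push Not at hcon
  have hsub : Set.Ioo (g 1) (g t₀) ⊆ g '' C := by
    intro v hv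
    obtain ⟨Q, a1, a2, a3, a4⟩ := key v hv.1 hv.2
    refine ⟨Q, ?_, a3⟩
    by_contra hQC
    obtain ⟨P, b1, b2, b3⟩ := hcon Q (by linarith) (by linarith) a2 hQC
    exact absurd (a4 P b1 b2) (not_le.2 b3)
  have hcnt : (Set.Ioo (g 1) (g t₀)).Countable := (hC.image g).mono hsub
  have := Cardinal.Real.Ioo_countable_iff.1 hcnt
  linarith

/-- Two Pliss rows, outside two countable sets. -/
theorem pliss_two {g : ℝ → ℝ} (hg : ContinuousOn g (Set.Icc 0 1))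
    (h1 : ∀ t, 0 ≤ t → t < 1 → g 1 < g t) {x : ℝ} (hx : 0 < x) {C C' : Set ℝ}
    (hC : C.Countable) (hC' : C'.Countable) :
    ∃ P Q, 1 - x < P ∧ 0 < P ∧ P < Q ∧ Q < 1 ∧ P ∉ C ∧ Q ∉ C' ∧
      (∀ t, 0 ≤ t → t ≤ P → g P ≤ g t) ∧ ∀ t, 0 ≤ t → t ≤ Q → g Q ≤ g t := by
  obtain ⟨P, a1, a2, a3, a4, a5⟩ := pliss hg h1 hx hC
  obtain ⟨Q, b1, b2, b3, b4, b5⟩ := pliss hg h1 (x := 1 - P) (by linarith) hC'
  exact ⟨P, Q, a1, a2, by linarith, b3, a4, b4, a5, b5⟩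

end Pool.S6C
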